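import Pool.Agent.R905.SF.Lin
import Pool.Agent.R905.GO.Arr

/-!
# Motives with compact supports and Schur-finiteness
-/

set_option autoImplicit false
set_option linter.dupNamespace false

open AlgebraicGeometry CategoryTheory Limits MonoidalCategory Pretriangulated
open Pool.Agent.Y112.KD Pool.Agent.R911.Sf Pool.Agent.R904.CU

namespace Pool.Agent.R905.SF

universe v u

section

variable (C : Type u) [Category.{v} C] [MonoidalCategory C] [SymmetricCategory C]
  [Preadditive C] [Linear ℚ C] [HasZeroObject C] [HasShift C ℤ]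
  [∀ n : ℤ, (shiftFunctor C n).Additive] [Pretriangulated C]

/-- If two of the three objects of a distinguished triangle are Schur-finite, so is the third. (In the
category of geometric motives this is a theorem of Guletskii and Mazza.) -/
def SchurTriangles : Prop :=
  ∀ T : Triangle C, T ∈ distTriang C →
    (SchurFinite T.obj₁ → SchurFinite T.obj₂ → SchurFinite T.obj₃) ∧
    (SchurFinite T.obj₁ → SchurFinite T.obj₃ → SchurFinite T.obj₂) ∧
    (SchurFinite T.obj₂ → SchurFinite T.obj₃ → SchurFinite T.obj₁)

end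

variable {C : Type u} [Category.{v} C]

/-- There is a distinguished triangle `A → B → D → A[1]`. -/
def InTriangle [Preadditive C] [HasZeroObject C] [HasShift C ℤ]
    [∀ n : ℤ, (shiftFunctor C n).Additive] [Pretriangulated C] (A B D : C) : Prop :=
  ∃ (a : A ⟶ B) (b : B ⟶ D) (c : D ⟶ A⟦(1 : ℤ)⟧), Triangle.mk a b c ∈ distTriang C

/-- The localization triangles: `M` assigns to a scheme over `K` an object of `C` (its motive with
compact supports), and for a closed subscheme `Z` of `X` with complement `U` there is a distinguished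
triangle `M(Z) → M(X) → M(U) → M(Z)[1]`. -/
def Localization {K : Type} [Field K] [Preadditive C] [HasZeroObject C] [HasShift C ℤ]
    [∀ n : ℤ, (shiftFunctor C n).Additive] [Pretriangulated C]
    (M : ∀ X : Scheme.{0}, (X ⟶ Spec (.of K)) → C) : Prop :=
  ∀ (X Z U : Scheme.{0}) (f : X ⟶ Spec (.of K)) (i : Z ⟶ X) (j : U ⟶ X), SepFinType K X f →
    IsClosedImmersion i → IsOpenImmersion j → Set.range i = (Set.range j)ᶜ →
    InTriangle (M Z (i ≫ f)) (M X f) (M U (j ≫ f))

/-- `M(E) = M(X) ⊗ L ⊗ ⋯ ⊗ L` (`r` factors `L`) for an affine bundle `E → X` of dimension `r` -/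
def Bundles {K : Type} [Field K] [MonoidalCategory C] (L : C)
    (M : ∀ X : Scheme.{0}, (X ⟶ Spec (.of K)) → C) : Prop :=
  ∀ (r : ℕ) (E X : Scheme.{0}) (π : E ⟶ X) (f : X ⟶ Spec (.of K)), SepFinType K X f →
    SepFinType K E (π ≫ f) → IsAffineBundle r π →
    Nonempty (M E (π ≫ f) ≅ M X f ⊗ tp L r)

end Pool.Agent.R905.SF
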