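import Pool.Agent.R911.Sf.Main

/-!
# Schur-finiteness: retracts and tensor products with even lines
-/

set_option autoImplicit false
set_option linter.all false

open CategoryTheory Limits MonoidalCategory
open Pool.Agent.Y112.KD Pool.Agent.R911.Sf

namespace Pool.Agent.R905.SF

universe v u

variable {C : Type u} [Category.{v} C] [MonoidalCategory C] [SymmetricCategory C]
  [Preadditive C] [Linear ℚ C] [MonoidalPreadditive C] [MonoidalLinear ℚ C]

/-- `L` is an invertible object with inverse `L'`, and the symmetry is the identity on `L ⊗ L` and on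
`L' ⊗ L'` (for motives: `L = ℚ(1)[2]` and `L' = ℚ(-1)[-2]`). -/
structure IsLine (L L' : C) : Prop where
  inverse : Nonempty (L ⊗ L' ≅ 𝟙_ C)
  braiding : (β_ L L).hom = 𝟙 (L ⊗ L)
  braiding' : (β_ L' L').hom = 𝟙 (L' ⊗ L')

lemma sf_retract {X Y : C} (i : X ⟶ Y) (r : Y ⟶ X) (hir : i ≫ r = 𝟙 X) (h : SchurFinite Y) :
    SchurFinite X := by
  obtain ⟨n, w, hw, hdep⟩ := h
  refine ⟨n, w, hw, ?_⟩
  rw [Fintype.not_linearIndependent_iff] at hdep ⊢
  obtain ⟨z, hz, τ, hτ⟩ := hdep
  refine ⟨z, ?_, τ, hτ⟩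
  have h2 := congrArg (fun y => tpm i n ≫ y ≫ tpm r n) hz
  simp only [Preadditive.sum_comp, Preadditive.comp_sum, Linear.smul_comp, Linear.comp_smul,
    comp_zero, zero_comp] at h2
  rw [← h2]
  refine Finset.sum_congr rfl fun σ _ => ?_
  rw [← word_nat, ← Category.assoc, tpm_comp', hir, tpm_id', Category.id_comp]

lemma sf_iso {X Y : C} (e : X ≅ Y) : SchurFinite X ↔ SchurFinite Y :=
  ⟨sf_retract e.inv e.hom e.inv_hom_id, sf_retract e.hom e.inv e.hom_inv_id⟩

lemma exch_line {L : C} (hL : (β_ L L).hom = 𝟙 (L ⊗ L)) (n i : ℕ) : exch L n i = 𝟙 _ := by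
  induction n with
  | zero => rfl
  | succ n ih =>
    cases n with
    | zero => rfl
    | succ n =>
      rw [exch]
      split_ifs
      · rw [sw, hL]
        simp
      · rw [ih, id_whiskerRight]

lemma word_line {L : C} (hL : (β_ L L).hom = 𝟙 (L ⊗ L)) (n : ℕ) (l : List ℕ) :
    word L n l = 𝟙 _ := by
  induction l with
  | nil => rfl
  | cons i l ih => rw [word, ih, exch_line hL, Category.id_comp]

lemma zip_left (A B : C) (n : ℕ) : ∃ u : tp A n ⊗ tp B n ⟶ tp (A ⊗ B) n,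
    zip A B n ≫ u = 𝟙 _ := by
  induction n with
  | zero =>
    refine ⟨(λ_ (𝟙_ C)).hom, ?_⟩
    simp [zip]
  | succ n ih =>
    obtain ⟨u, hu⟩ := ih
    refine ⟨tensorδ (tp A n) (tp B n) A B ≫ (u ▷ (A ⊗ B)), ?_⟩
    rw [zip_succ]
    simp only [Category.assoc]
    rw [tensorμ_tensorδ_assoc, ← comp_whiskerRight, hu, id_whiskerRight]

lemma sf_tensor {A L : C} (hL : (β_ L L).hom = 𝟙 (L ⊗ L)) (h : SchurFinite A) :
    SchurFinite (A ⊗ L) := by
  obtain ⟨n, w, hw, hdep⟩ := h
  refine ⟨n, w, hw, ?_⟩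
  rw [Fintype.not_linearIndependent_iff] at hdep ⊢
  obtain ⟨z, hz, τ, hτ⟩ := hdep
  refine ⟨z, ?_, τ, hτ⟩
  obtain ⟨u, hu⟩ := zip_left A L n
  have h1 : ∀ σ, word (A ⊗ L) n (w σ) = zip A L n ≫ (word A n (w σ) ▷ tp L n) ≫ u := by
    intro σ
    have h2 := word_zip A L n (w σ)
    rw [word_line hL, tensorHom_id] at h2
    rw [← Category.assoc, ← h2, Category.assoc, hu, Category.comp_id]
  have h3 : ∑ σ, z σ • (word A n (w σ) ▷ tp L n) = 0 := by
    have h4 := congrArg (fun y => y ▷ tp L n) hz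
    simp only [MonoidalPreadditive.zero_whiskerRight] at h4
    rw [← h4, sum_whiskerRight]
    refine Finset.sum_congr rfl fun σ _ => ?_
    rw [MonoidalLinear.smul_whiskerRight]
  calc ∑ σ, z σ • word (A ⊗ L) n (w σ)
      = zip A L n ≫ (∑ σ, z σ • (word A n (w σ) ▷ tp L n)) ≫ u := by
        simp only [h1, Preadditive.sum_comp, Preadditive.comp_sum, Linear.smul_comp,
          Linear.comp_smul]
    _ = 0 := by rw [h3, zero_comp, comp_zero]

lemma sf_line {L L' : C} (hL : IsLine L L') (A : C) : SchurFinite (A ⊗ L) ↔ SchurFinite A := by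
  constructor
  · intro h
    obtain ⟨e⟩ := hL.inverse
    exact (sf_iso ((α_ A L L') ≪≫ whiskerLeftIso A e ≪≫ ρ_ A)).1 (sf_tensor hL.braiding' h)
  · exact sf_tensor hL.braiding

/-- tensor products with powers of an even line -/
lemma sf_power {L L' : C} (hL : IsLine L L') (A : C) (r : ℕ) :
    SchurFinite (A ⊗ tp L r) ↔ SchurFinite A := by
  induction r with
  | zero => exact sf_iso (ρ_ A)
  | succ r ih =>
    rw [← ih, ← sf_line hL (A ⊗ tp L r)]
    exact sf_iso (α_ A (tp L r) L).symm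

end Pool.Agent.R905.SF
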