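import Pool.Agent.R905.SF.Defs
import Pool.Agent.R904.CU.Main

/-!
# Schur-finiteness of motives and cubic hypersurfaces: proofs
-/

set_option autoImplicit false
set_option linter.all false

open AlgebraicGeometry CategoryTheory Limits MonoidalCategory Pretriangulated
open Pool.Agent.Y112.KD Pool.Agent.R911.Sf Pool.Agent.R904.CU Pool.Agent.R904

namespace Pool.Agent.R905.SF

universe v u

variable {C : Type u} [Category.{v} C] [MonoidalCategory C] [SymmetricCategory C]
  [Preadditive C] [Linear ℚ C] [MonoidalPreadditive C] [MonoidalLinear ℚ C]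
  [HasZeroObject C] [HasShift C ℤ] [∀ n : ℤ, (shiftFunctor C n).Additive] [Pretriangulated C]
  {K : Type} [Field K] {M : ∀ X : Scheme.{0}, (X ⟶ Spec (.of K)) → C}

theorem twoOfThree (hC : SchurTriangles C) (hM : Localization M) :
    TwoOfThree (SepFinType K) (fun X f => SchurFinite (M X f)) := by
  intro X Z U f i j hf hi hj hr
  obtain ⟨a, b, c, h⟩ := hM X Z U f i j hf hi hj hr
  obtain ⟨h1, h2, h3⟩ := hC _ h
  exact ⟨h1, h2, h3⟩

theorem bundleInvariant {L L' : C} (hL : IsLine L L') (hM : Bundles L M) :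
    BundleInvariant (SepFinType K) (fun X f => SchurFinite (M X f)) := by
  intro r E X π f hX hE hπ
  obtain ⟨e⟩ := hM r E X π f hX hE hπ
  exact (sf_iso e).trans (sf_power hL _ r)

theorem main (hC : SchurTriangles C) (hM : Localization M) {L L' : C} (hL : IsLine L L')
    (hB : Bundles L M) {N : ∀ X : Scheme.{0}, (X ⟶ Spec (.of K)) → C} {Sm : SchProp K}
    (hN : ∀ X f, SepFinType K X f → Sm X f → (SchurFinite (N X f) ↔ SchurFinite (M X f)))
    (h1 : ∀ (ι : Type) [Fintype ι] (F : MvPolynomial ι K), IsSmoothCubic F → Sm _ (hyp F))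
    (h2 : ∀ (ι : Type) [Fintype ι], ∀ a ∈ EL.elemProds (Set.univ : Set K) ι,
      Sm _ (EL.complHom a)) :
    [∀ X f, SepFinType K X f → Sm X f → SchurFinite (N X f),
     ∀ X f, SepFinType K X f → SchurFinite (M X f),
     ∀ (ι : Type) [Fintype ι] (F : MvPolynomial ι K), IsSmoothCubic F →
       SchurFinite (N _ (hyp F)),
     ∀ (ι : Type) [Fintype ι], ∀ a ∈ EL.elemProds (Set.univ : Set K) ι,
       SchurFinite (N _ (EL.complHom a))].TFAE := by
  have hc : ∀ (ι : Type) [Fintype ι] (F : MvPolynomial ι K), SepFinType K _ (hyp F) :=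
    fun ι _ F => (cls_sepFinType K).affine _ inferInstance
  have ha : ∀ (ι : Type) [Fintype ι] (a : MvPolynomial ι K), SepFinType K _ (EL.complHom a) :=
    fun ι _ a => (cls_sepFinType K).affine _ inferInstance
  tfae_have 1 → 3 := fun h ι _ F hF => h _ _ (hc ι F) (h1 ι F hF)
  tfae_have 1 → 4 := fun h ι _ a h3 => h _ _ (ha ι a) (h2 ι a h3)
  tfae_have 2 → 1 := fun h X f hf hX => (hN X f hf hX).2 (h X f hf)
  tfae_have 3 → 2 := by
    intro h X f hf
    refine p_all (P := fun X f => SchurFinite (M X f)) (cls_sepFinType K) (twoOfThree hC hM)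
      (bundleInvariant hL hB) ?_ X f hf
    intro ι _ F hF
    exact (hN _ _ (hc ι F) (h1 ι F hF)).1 (h ι F hF)
  tfae_have 4 → 2 := by
    intro h X f hf
    refine GO.p_arr (P := fun X f => SchurFinite (M X f)) (twoOfThree hC hM) ?_ X f hf
    intro ι _ a h3
    exact (hN _ _ (ha ι a) (h2 ι a h3)).1 (h ι a h3)
  tfae_finish

end Pool.Agent.R905.SF
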